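import Pool.Agent.Lib.JM69.Main
import Pool.Agent.Lib.JMF.QMOf

/-!
# The strong Jonsson–Mustață conjecture on affine space

Affine space of dimension `n` over a field `k` of characteristic zero. The definitions are in
`Pool.Agent.Lib.JM_H15.Basic`, `Deriv`, `Defs` (valuations, log discrepancy, graded sequences,
`Computes`) and in `Pool.Agent.Lib.JMF.QMPar`, `QMBlow`, `QMDefs` (`IsQuasiMonomial`).
-/

set_option autoImplicit false

open MvPolynomial Pool.Agent.H15JM Pool.Agent.JMF

/-- Let `v` be a real valuation of the function field of affine `n`-space over `k` with a center on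
it and with residue field `k` (for `k` algebraically closed: of transcendence degree `0`), and
suppose that `v` computes `Arn^q(a_•) > 0` for a nonzero ideal `q` and a graded sequence of ideals
`a_•`. Then `v` is quasi-monomial. -/
theorem Pool.Agent.Results.MP_34288e_ag.QuasiMonomial.result {k : Type} [Field k] [CharZero k]
    {n : ℕ} (v : ValX k n) (hres : v.ResidueFieldIs)
    (q : Ideal (MvPolynomial (Fin n) k)) (hq : q ≠ ⊥)
    (a : GradedSeq k n) (hcomp : v.Computes q a) : IsQuasiMonomial v :=
  isQuasiMonomial_of_rank v hres (Pool.Agent.JM69.strong_jm v hres q hq a hcomp)
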